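import Pool.Agent.helper20.Hz.E0

/-! # MODULE E: membership in the group generated by the Lickorish twists -/

namespace Pool.Agent.helper20.Hz

open Pool.Agent.helper35.Hz

variable {g : ℕ}

theorem tauM_step {g i j : ℕ} (h : i < j) (hj : j + 1 < g) :
    tauM g i (j + 1) = stepF g j * tauM g i j * (stepF g j)⁻¹ := by
  rw [eq_mul_inv_iff_mul_eq]
  have hj0 : j < g := by omega
  have hi : i < g := by omega
  have h' : i < j + 1 := by omega
  obtain ⟨va, vb, va', vb'⟩ := stepF_val hj
  have vo : ∀ l, l < g → l ≠ j → l ≠ j + 1 → stepF g j (ga g l) = ga g l ∧ stepF g j (gb g l) = gb g l :=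
    fun l hl h1 h2 => stepF_out hj hl h1 h2
  have vz : stepF g j (zr g (i + 1) j) = zr g (i + 1) j :=
    zr_fixed fun l h1 h2 => vo l (by omega) (by omega) (by omega)
  have vmu : stepF g j (mu g i j) = mu g i (j + 1) := by
    rw [mu, mu, zr_succ g (by omega : i + 1 ≤ j)]
    simp only [map_mul, map_inv, (vo i hi (by omega) (by omega)).1, (vo i hi (by omega) (by omega)).2, vz, va]
    simp [mul_assoc, gz]
  generalize stepF g j = F at *
  have min := M_in h' hj (by omega : i < j) (Nat.lt_succ_self j)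
  have mr := M_right h' hj
  obtain ⟨k1, k2, k3, k4⟩ := step_abs2 (ga g j) (gb g j) (ga g (j + 1)) (gb g (j + 1)) (mu g i (j + 1))
    (tauM g i (j + 1)) min.1 min.2 mr.1 mr.2
  refine fg_aut_ext (fun l hl => ?_) (fun l hl => ?_)
  · change tauM g i (j + 1) (F (ga g l)) = F (tauM g i j (ga g l))
    rcases lt_trichotomy l i with h1 | h1 | h1
    · rw [(vo l hl (by omega) (by omega)).1, (M_out h hj0 hl (Or.inl h1)).1, (M_out h' hj hl (Or.inl h1)).1,
        (vo l hl (by omega) (by omega)).1]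
    · subst h1
      rw [(vo l hl (by omega) (by omega)).1, (M_left h hj0).1, (M_left h' hj).1,
        (vo l hl (by omega) (by omega)).1]
    · rcases lt_trichotomy l j with h2 | h2 | h2
      · rw [(vo l hl (by omega) (by omega)).1, (M_in h hj0 h1 h2).1, (M_in h' hj h1 (by omega)).1,
          map_mul, map_mul, map_inv, vmu, (vo l hl (by omega) (by omega)).1]
      · subst h2
        rw [(M_right h hj0).1, map_mul, map_mul, map_inv, vmu, va, k1]
      · rcases eq_or_ne l (j + 1) with h3 | h3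
        · subst h3
          rw [(M_out h hj0 hl (Or.inr h2)).1, va', k3]
        · rw [(vo l hl (by omega) (by omega)).1, (M_out h hj0 hl (Or.inr h2)).1,
            (M_out h' hj hl (by omega)).1, (vo l hl (by omega) (by omega)).1]
  · change tauM g i (j + 1) (F (gb g l)) = F (tauM g i j (gb g l))
    rcases lt_trichotomy l i with h1 | h1 | h1
    · rw [(vo l hl (by omega) (by omega)).2, (M_out h hj0 hl (Or.inl h1)).2, (M_out h' hj hl (Or.inl h1)).2,
        (vo l hl (by omega) (by omega)).2]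
    · subst h1
      rw [(vo l hl (by omega) (by omega)).2, (M_left h hj0).2, (M_left h' hj).2, map_mul, vmu,
        (vo l hl (by omega) (by omega)).2]
    · rcases lt_trichotomy l j with h2 | h2 | h2
      · rw [(vo l hl (by omega) (by omega)).2, (M_in h hj0 h1 h2).2, (M_in h' hj h1 (by omega)).2,
          map_mul, map_mul, map_inv, vmu, (vo l hl (by omega) (by omega)).2]
      · subst h2
        rw [(M_right h hj0).2, map_mul, map_inv, vmu, vb, k2]
      · rcases eq_or_ne l (j + 1) with h3 | h3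
        · subst h3
          rw [(M_out h hj0 hl (Or.inr h2)).2, vb', k4]
        · rw [(vo l hl (by omega) (by omega)).2, (M_out h hj0 hl (Or.inr h2)).2,
            (M_out h' hj hl (by omega)).2, (vo l hl (by omega) (by omega)).2]

/-! ### membership -/

theorem pair_A {g m i : ℕ} (hi : i < m) : (tauA g i, tauA m i) ∈ Lpair g m :=
  Subgroup.subset_closure (Or.inl (Or.inl ⟨i, hi, rfl⟩))
theorem pair_B {g m i : ℕ} (hi : i < m) : (tauB g i, tauB m i) ∈ Lpair g m :=
  Subgroup.subset_closure (Or.inl (Or.inr ⟨i, hi, rfl⟩))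
theorem pair_M {g m i : ℕ} (hi : i + 1 < m) : (tauM g i (i + 1), tauM m i (i + 1)) ∈ Lpair g m :=
  Subgroup.subset_closure (Or.inr ⟨i, hi, rfl⟩)

theorem pair_stepF {g m j : ℕ} (hj : j + 1 < m) : (stepF g j, stepF m j) ∈ Lpair g m := by
  have hA := @pair_A g m j (by omega)
  have hA' := @pair_A g m (j + 1) hj
  have hB := @pair_B g m j (by omega)
  have hB' := @pair_B g m (j + 1) hj
  have hM := @pair_M g m j hj
  have key := (Lpair g m).mul_mem ((Lpair g m).mul_mem ((Lpair g m).mul_mem ((Lpair g m).mul_mem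
    ((Lpair g m).mul_mem ((Lpair g m).mul_mem ((Lpair g m).mul_mem ((Lpair g m).inv_mem hB')
    ((Lpair g m).inv_mem hM)) ((Lpair g m).inv_mem hB)) ((Lpair g m).inv_mem hA)) hA') hB') hM) hB
  simp only [Prod.inv_mk, Prod.mk_mul_mk] at key
  rw [stepF, stepF]
  exact key

theorem tauM_pair {g m i j : ℕ} (h : i < j) (hj : j < m) (hm : m ≤ g) :
    (tauM g i j, tauM m i j) ∈ Lpair g m := by
  obtain ⟨d, rfl⟩ : ∃ d, j = i + 1 + d := ⟨j - (i + 1), by omega⟩
  clear h
  induction d with
  | zero => exact pair_M hj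
  | succ d ih =>
    have ih' := ih (by omega)
    have hF := @pair_stepF g m (i + 1 + d) (by omega)
    have e1 := tauM_step (g := g) (i := i) (j := i + 1 + d) (by omega) (by omega)
    have e2 := tauM_step (g := m) (i := i) (j := i + 1 + d) (by omega) (by omega)
    change (tauM g i (i + 1 + d + 1), tauM m i (i + 1 + d + 1)) ∈ Lpair g m
    rw [e1, e2]
    have key := (Lpair g m).mul_mem ((Lpair g m).mul_mem hF ih') ((Lpair g m).inv_mem hF)
    simp only [Prod.inv_mk, Prod.mk_mul_mk] at key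
    exact key

theorem tauN_pair {g m i j : ℕ} (h : i < j) (hj : j < m) (hm : m ≤ g) :
    (tauN g i j, tauN m i j) ∈ Lpair g m := by
  rw [tauN_eq (g := g) h (by omega), tauN_eq (g := m) h hj]
  have hU : (tauA g j * tauB g j * tauA g i * tauB g i, tauA m j * tauB m j * tauA m i * tauB m i) ∈
      Lpair g m := by
    have key := (Lpair g m).mul_mem ((Lpair g m).mul_mem ((Lpair g m).mul_mem (@pair_A g m j hj)
      (@pair_B g m j hj)) (@pair_A g m i (by omega))) (@pair_B g m i (by omega))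
    simp only [Prod.mk_mul_mk] at key
    exact key
  have key := (Lpair g m).mul_mem ((Lpair g m).mul_mem hU (tauM_pair h hj hm)) ((Lpair g m).inv_mem hU)
  simp only [Prod.inv_mk, Prod.mk_mul_mk] at key
  exact key

theorem Lam_A {g i : ℕ} (hi : i < g) : tauA g i ∈ Lam g :=
  Subgroup.subset_closure (Or.inl (Or.inl ⟨i, hi, rfl⟩))
theorem Lam_B {g i : ℕ} (hi : i < g) : tauB g i ∈ Lam g :=
  Subgroup.subset_closure (Or.inl (Or.inr ⟨i, hi, rfl⟩))
theorem Lam_M {g i : ℕ} (hi : i + 1 < g) : tauM g i (i + 1) ∈ Lam g :=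
  Subgroup.subset_closure (Or.inr ⟨i, hi, rfl⟩)

theorem Lpair_fst {g m : ℕ} (hm : m ≤ g) {p : MulAut (FG g) × MulAut (FG m)} (hp : p ∈ Lpair g m) :
    p.1 ∈ Lam g := by
  have h : Lpair g m ≤ (Lam g).comap (MonoidHom.fst _ _) := by
    rw [Lpair, Subgroup.closure_le]
    rintro _ ((⟨i, hi, rfl⟩ | ⟨i, hi, rfl⟩) | ⟨i, hi, rfl⟩)
    · exact Lam_A (by omega)
    · exact Lam_B (by omega)
    · exact Lam_M (by omega)
  exact h hp

theorem tauM_Lam {g i j : ℕ} (h : i < j) (hj : j < g) : tauM g i j ∈ Lam g :=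
  Lpair_fst le_rfl (tauM_pair h hj le_rfl)
theorem tauN_Lam {g i j : ℕ} (h : i < j) (hj : j < g) : tauN g i j ∈ Lam g :=
  Lpair_fst le_rfl (tauN_pair h hj le_rfl)

theorem uu_Lam {g off j : ℕ} (h : off + j / 2 < g) : uu g off j ∈ Lam g := by
  unfold uu
  split_ifs with h0 h1
  · exact Lam_B (by omega)
  · exact (Lam g).mul_mem ((Lam g).mul_mem (Lam_B h) (Lam_A h)) ((Lam g).inv_mem (Lam_B h))
  · exact tauN_Lam (by omega) h

theorem TT_Lam {k d : ℕ} (hk : 1 ≤ k) : TT k d ∈ Lam (2 * k) := by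
  induction d with
  | zero => exact tauN_Lam (by omega) (by omega)
  | succ d ih =>
    have hU : UU k (2 * k - 1 - d) ∈ Lam (2 * k) :=
      (Lam _).mul_mem (uu_Lam (by omega)) (uu_Lam (by omega))
    exact (Lam _).mul_mem ((Lam _).mul_mem ((Lam _).inv_mem hU) ih) hU

theorem Tj_Lam {k j : ℕ} (hk : 1 ≤ k) : Tj k j ∈ Lam (2 * k) := TT_Lam hk

/-- `δ_k` is in the Lickorish group, given the chain relation (module S) -/
theorem delta_Lam_of {g k : ℕ} (h : k ≤ g)
    (hch : delta g k = ((((List.range (2 * k)).map fun j => (uu g 0 j)⁻¹).prod) ^ (4 * k + 2))⁻¹) :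
    delta g k ∈ Lam g := by
  rw [hch]
  refine (Lam g).inv_mem ((Lam g).pow_mem ((Lam g).list_prod_mem fun x hx => ?_) _)
  rw [List.mem_map] at hx
  obtain ⟨j, hj, rfl⟩ := hx
  rw [List.mem_range] at hj
  exact (Lam g).inv_mem (uu_Lam (by omega))

end Pool.Agent.helper20.Hz
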