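import Pool.Agent.helper35.Hz.Sdefs

/-! # MODULE E: membership in the group generated by the Lickorish twists -/

namespace Pool.Agent.helper20.Hz

set_option linter.unnecessarySeqFocus false
set_option linter.unreachableTactic false
set_option linter.unusedTactic false

open Pool.Agent.helper35.Hz

variable {g : ℕ}

/-! ### values on generators -/

theorem A_ga {i l : ℕ} (hl : l < g) : tauA g i (ga g l) = ga g l := by
  rw [tauA, tw_ga hl]; simp [bA]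
theorem A_gb_self {i : ℕ} (hl : i < g) : tauA g i (gb g i) = gb g i * (ga g i)⁻¹ := by
  rw [tauA, tw_gb hl]; simp [bA]
theorem A_gb_ne {i l : ℕ} (hl : l < g) (h : l ≠ i) : tauA g i (gb g l) = gb g l := by
  rw [tauA, tw_gb hl]; simp [bA, h]
theorem Ai_ga {i l : ℕ} (hl : l < g) : (tauA g i)⁻¹ (ga g l) = ga g l := by
  rw [tauA, tw_inv_ga hl]; simp [bA]
theorem Ai_gb_self {i : ℕ} (hl : i < g) : (tauA g i)⁻¹ (gb g i) = gb g i * ga g i := by
  rw [tauA, tw_inv_gb hl]; simp [bA]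
theorem Ai_gb_ne {i l : ℕ} (hl : l < g) (h : l ≠ i) : (tauA g i)⁻¹ (gb g l) = gb g l := by
  rw [tauA, tw_inv_gb hl]; simp [bA, h]

theorem B_gb {i l : ℕ} (hl : l < g) : tauB g i (gb g l) = gb g l := by
  rw [tauB, tw_gb hl]; simp [bB]
theorem B_ga_self {i : ℕ} (hl : i < g) : tauB g i (ga g i) = ga g i * gb g i := by
  rw [tauB, tw_ga hl]; simp [bB]
theorem B_ga_ne {i l : ℕ} (hl : l < g) (h : l ≠ i) : tauB g i (ga g l) = ga g l := by
  rw [tauB, tw_ga hl]; simp [bB, h]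
theorem Bi_gb {i l : ℕ} (hl : l < g) : (tauB g i)⁻¹ (gb g l) = gb g l := by
  rw [tauB, tw_inv_gb hl]; simp [bB]
theorem Bi_ga_self {i : ℕ} (hl : i < g) : (tauB g i)⁻¹ (ga g i) = ga g i * (gb g i)⁻¹ := by
  rw [tauB, tw_inv_ga hl]; simp [bB]
theorem Bi_ga_ne {i l : ℕ} (hl : l < g) (h : l ≠ i) : (tauB g i)⁻¹ (ga g l) = ga g l := by
  rw [tauB, tw_inv_ga hl]; simp [bB, h]

theorem M_ga {i j l : ℕ} (h : i < j) (hj : j < g) (hl : l < g) : tauM g i j (ga g l) =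
    (if αM i j l true then mu g i j else 1) * ga g l * (if βM i j l true then (mu g i j)⁻¹ else 1) := by
  rw [tauM, dif_pos ⟨h, hj⟩, tw_ga hl]
theorem M_gb {i j l : ℕ} (h : i < j) (hj : j < g) (hl : l < g) : tauM g i j (gb g l) =
    (if αM i j l false then mu g i j else 1) * gb g l * (if βM i j l false then (mu g i j)⁻¹ else 1) := by
  rw [tauM, dif_pos ⟨h, hj⟩, tw_gb hl]
theorem Mi_ga {i j l : ℕ} (h : i < j) (hj : j < g) (hl : l < g) : (tauM g i j)⁻¹ (ga g l) =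
    (if αM i j l true then (mu g i j)⁻¹ else 1) * ga g l * (if βM i j l true then mu g i j else 1) := by
  rw [tauM, dif_pos ⟨h, hj⟩, tw_inv_ga hl]
theorem Mi_gb {i j l : ℕ} (h : i < j) (hj : j < g) (hl : l < g) : (tauM g i j)⁻¹ (gb g l) =
    (if αM i j l false then (mu g i j)⁻¹ else 1) * gb g l * (if βM i j l false then mu g i j else 1) := by
  rw [tauM, dif_pos ⟨h, hj⟩, tw_inv_gb hl]
theorem N_ga {i j l : ℕ} (h : i < j) (hj : j < g) (hl : l < g) : tauN g i j (ga g l) =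
    (if αN i j l true then nu g i j else 1) * ga g l * (if βN i j l true then (nu g i j)⁻¹ else 1) := by
  rw [tauN, dif_pos ⟨h, hj⟩, tw_ga hl]
theorem N_gb {i j l : ℕ} (h : i < j) (hj : j < g) (hl : l < g) : tauN g i j (gb g l) =
    (if αN i j l false then nu g i j else 1) * gb g l * (if βN i j l false then (nu g i j)⁻¹ else 1) := by
  rw [tauN, dif_pos ⟨h, hj⟩, tw_gb hl]

theorem M_out {i j l : ℕ} (h : i < j) (hj : j < g) (hl : l < g) (ho : l < i ∨ j < l) :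
    tauM g i j (ga g l) = ga g l ∧ tauM g i j (gb g l) = gb g l := by
  have e1 : αM i j l true = false := by simp [αM] <;> omega
  have e2 : αM i j l false = false := by simp [αM] <;> omega
  have e3 : ∀ s, βM i j l s = false := fun s => by simp [βM] <;> omega
  rw [M_ga h hj hl, M_gb h hj hl]
  simp [e1, e2, e3]
theorem Mi_out {i j l : ℕ} (h : i < j) (hj : j < g) (hl : l < g) (ho : l < i ∨ j < l) :
    (tauM g i j)⁻¹ (ga g l) = ga g l ∧ (tauM g i j)⁻¹ (gb g l) = gb g l := by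
  have e1 : αM i j l true = false := by simp [αM] <;> omega
  have e2 : αM i j l false = false := by simp [αM] <;> omega
  have e3 : ∀ s, βM i j l s = false := fun s => by simp [βM] <;> omega
  rw [Mi_ga h hj hl, Mi_gb h hj hl]
  simp [e1, e2, e3]
theorem M_in {i j l : ℕ} (h : i < j) (hj : j < g) (h1 : i < l) (h2 : l < j) :
    tauM g i j (ga g l) = mu g i j * ga g l * (mu g i j)⁻¹ ∧
    tauM g i j (gb g l) = mu g i j * gb g l * (mu g i j)⁻¹ := by
  have e1 : αM i j l true = true := by simp [αM] <;> omega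
  have e2 : αM i j l false = true := by simp [αM] <;> omega
  have e3 : ∀ s, βM i j l s = true := fun s => by simp [βM] <;> omega
  rw [M_ga h hj (by omega), M_gb h hj (by omega)]
  simp [e1, e2, e3]
theorem M_left {i j : ℕ} (h : i < j) (hj : j < g) :
    tauM g i j (ga g i) = ga g i ∧ tauM g i j (gb g i) = mu g i j * gb g i := by
  have e1 : αM i j i true = false := by simp [αM] <;> omega
  have e2 : αM i j i false = true := by simp [αM] <;> omega
  have e3 : ∀ s, βM i j i s = false := fun s => by simp [βM] <;> omega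
  rw [M_ga h hj (by omega), M_gb h hj (by omega)]
  simp [e1, e2, e3]
theorem M_right {i j : ℕ} (h : i < j) (hj : j < g) :
    tauM g i j (ga g j) = mu g i j * ga g j * (mu g i j)⁻¹ ∧
    tauM g i j (gb g j) = gb g j * (mu g i j)⁻¹ := by
  have e1 : αM i j j true = true := by simp [αM] <;> omega
  have e2 : αM i j j false = false := by simp [αM] <;> omega
  have e3 : ∀ s, βM i j j s = true := fun s => by simp [βM] <;> omega
  rw [M_ga h hj (by omega), M_gb h hj (by omega)]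
  simp [e1, e2, e3]
theorem Mi_left {i j : ℕ} (h : i < j) (hj : j < g) :
    (tauM g i j)⁻¹ (ga g i) = ga g i ∧ (tauM g i j)⁻¹ (gb g i) = (mu g i j)⁻¹ * gb g i := by
  have e1 : αM i j i true = false := by simp [αM] <;> omega
  have e2 : αM i j i false = true := by simp [αM] <;> omega
  have e3 : ∀ s, βM i j i s = false := fun s => by simp [βM] <;> omega
  rw [Mi_ga h hj (by omega), Mi_gb h hj (by omega)]
  simp [e1, e2, e3]
theorem Mi_right {i j : ℕ} (h : i < j) (hj : j < g) :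
    (tauM g i j)⁻¹ (ga g j) = (mu g i j)⁻¹ * ga g j * mu g i j ∧
    (tauM g i j)⁻¹ (gb g j) = gb g j * mu g i j := by
  have e1 : αM i j j true = true := by simp [αM] <;> omega
  have e2 : αM i j j false = false := by simp [αM] <;> omega
  have e3 : ∀ s, βM i j j s = true := fun s => by simp [βM] <;> omega
  rw [Mi_ga h hj (by omega), Mi_gb h hj (by omega)]
  simp [e1, e2, e3]
theorem N_out {i j l : ℕ} (h : i < j) (hj : j < g) (hl : l < g) (ho : l < i ∨ j < l) :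
    tauN g i j (ga g l) = ga g l ∧ tauN g i j (gb g l) = gb g l := by
  have e1 : αN i j l true = false := by simp [αN] <;> omega
  have e2 : αN i j l false = false := by simp [αN] <;> omega
  have e3 : ∀ s, βN i j l s = false := fun s => by simp [βN] <;> omega
  rw [N_ga h hj hl, N_gb h hj hl]
  simp [e1, e2, e3]
theorem N_in {i j l : ℕ} (h : i < j) (hj : j < g) (h1 : i < l) (h2 : l < j) :
    tauN g i j (ga g l) = nu g i j * ga g l * (nu g i j)⁻¹ ∧
    tauN g i j (gb g l) = nu g i j * gb g l * (nu g i j)⁻¹ := by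
  have e1 : αN i j l true = true := by simp [αN] <;> omega
  have e2 : αN i j l false = true := by simp [αN] <;> omega
  have e3 : ∀ s, βN i j l s = true := fun s => by simp [βN] <;> omega
  rw [N_ga h hj (by omega), N_gb h hj (by omega)]
  simp [e1, e2, e3]
theorem N_left {i j : ℕ} (h : i < j) (hj : j < g) :
    tauN g i j (ga g i) = ga g i * (nu g i j)⁻¹ ∧
    tauN g i j (gb g i) = nu g i j * gb g i * (nu g i j)⁻¹ := by
  have e1 : αN i j i true = false := by simp [αN] <;> omega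
  have e2 : αN i j i false = true := by simp [αN] <;> omega
  have e3 : ∀ s, βN i j i s = true := fun s => by simp [βN] <;> omega
  rw [N_ga h hj (by omega), N_gb h hj (by omega)]
  simp [e1, e2, e3]
theorem N_right {i j : ℕ} (h : i < j) (hj : j < g) :
    tauN g i j (ga g j) = nu g i j * ga g j ∧ tauN g i j (gb g j) = gb g j := by
  have e1 : αN i j j true = true := by simp [αN] <;> omega
  have e2 : αN i j j false = false := by simp [αN] <;> omega
  have e3 : ∀ s, βN i j j s = false := fun s => by simp [βN] <;> omega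
  rw [N_ga h hj (by omega), N_gb h hj (by omega)]
  simp [e1, e2, e3]

/-- an automorphism that fixes the handles `i ≤ l < j` fixes `zr g i j` -/
theorem zr_fixed {f : MulAut (FG g)} {i j : ℕ}
    (h : ∀ l, i ≤ l → l < j → f (ga g l) = ga g l ∧ f (gb g l) = gb g l) :
    f (zr g i j) = zr g i j := by
  change f.toMonoidHom (zr g i j) = zr g i j
  exact hom_zr_fix fun l h1 h2 => gz_fix (h l h1 h2).1 (h l h1 h2).2

theorem tauN_eq {g i j : ℕ} (h : i < j) (hj : j < g) :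
    tauN g i j = (tauA g j * tauB g j * tauA g i * tauB g i) * tauM g i j *
      (tauA g j * tauB g j * tauA g i * tauB g i)⁻¹ := by
  rw [eq_mul_inv_iff_mul_eq]
  obtain ⟨U, hU⟩ : ∃ U : MulAut (FG g), U = tauA g j * tauB g j * tauA g i * tauB g i := ⟨_, rfl⟩
  rw [← hU]
  have hi : i < g := by omega
  have ne1 : i ≠ j := by omega
  have ne2 : j ≠ i := by omega
  have Uap : ∀ x, U x = tauA g j (tauB g j (tauA g i (tauB g i x))) := fun x => by rw [hU]; rfl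
  have Uo : ∀ l, l < g → l ≠ i → l ≠ j → U (ga g l) = ga g l ∧ U (gb g l) = gb g l := by
    intro l hl h1 h2
    simp only [Uap, B_ga_ne hl h1, B_gb hl, A_ga hl, A_gb_ne hl h1, B_ga_ne hl h2, A_gb_ne hl h2, and_self]
  have Ui_a : U (ga g i) = ga g i * gb g i * (ga g i)⁻¹ := by
    simp only [Uap, B_ga_self hi, map_mul, A_ga hi, A_gb_self hi, B_ga_ne hi ne1, B_gb hi, A_gb_ne hi ne1,
      map_inv, mul_assoc]
  have Ui_b : U (gb g i) = gb g i * (ga g i)⁻¹ := by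
    simp only [Uap, map_mul, A_ga hi, A_gb_self hi, B_ga_ne hi ne1, B_gb hi, A_gb_ne hi ne1,
      map_inv]
  have Uj_a : U (ga g j) = ga g j * gb g j * (ga g j)⁻¹ := by
    simp only [Uap, B_ga_self hj, B_ga_ne hj ne2, map_mul, A_ga hj, A_gb_self hj, mul_assoc]
  have Uj_b : U (gb g j) = gb g j * (ga g j)⁻¹ := by
    simp only [Uap, B_gb hj, A_gb_ne hj ne2, A_gb_self hj]
  have Uz : U (zr g (i + 1) j) = zr g (i + 1) j :=
    zr_fixed fun l h1 h2 => Uo l (by omega) (by omega) (by omega)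
  have Umu : U (mu g i j) = nu g i j := by
    simp only [mu, nu, map_mul, map_inv, Ui_a, Ui_b, Uj_a, Uz]
    simp [mul_assoc]
  refine fg_aut_ext (fun l hl => ?_) (fun l hl => ?_)
  · rw [MulAut.mul_apply, MulAut.mul_apply]
    rcases lt_trichotomy l i with h1 | h1 | h1
    · rw [(Uo l hl (by omega) (by omega)).1, (M_out h hj hl (Or.inl h1)).1, (N_out h hj hl (Or.inl h1)).1,
        (Uo l hl (by omega) (by omega)).1]
    · subst h1
      rw [(M_left h hj).1, Ui_a, map_mul, map_mul, map_inv, (N_left h hj).1, (N_left h hj).2]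
      simp [mul_assoc]
    · rcases lt_trichotomy l j with h2 | h2 | h2
      · rw [(Uo l hl (by omega) (by omega)).1, (M_in h hj h1 h2).1, (N_in h hj h1 h2).1,
          map_mul, map_mul, map_inv, Umu, (Uo l hl (by omega) (by omega)).1]
      · subst h2
        rw [(M_right h hj).1, map_mul, map_mul, map_inv, Umu, Uj_a, map_mul, map_mul, map_inv,
          (N_right h hj).1, (N_right h hj).2]
        simp [mul_assoc]
      · rw [(Uo l hl (by omega) (by omega)).1, (M_out h hj hl (Or.inr h2)).1,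
          (N_out h hj hl (Or.inr h2)).1, (Uo l hl (by omega) (by omega)).1]
  · rw [MulAut.mul_apply, MulAut.mul_apply]
    rcases lt_trichotomy l i with h1 | h1 | h1
    · rw [(Uo l hl (by omega) (by omega)).2, (M_out h hj hl (Or.inl h1)).2, (N_out h hj hl (Or.inl h1)).2,
        (Uo l hl (by omega) (by omega)).2]
    · subst h1
      rw [(M_left h hj).2, Ui_b, map_mul, map_mul, map_inv, (N_left h hj).1, (N_left h hj).2, Umu, Ui_b]
      simp [mul_assoc]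
    · rcases lt_trichotomy l j with h2 | h2 | h2
      · rw [(Uo l hl (by omega) (by omega)).2, (M_in h hj h1 h2).2, (N_in h hj h1 h2).2,
          map_mul, map_mul, map_inv, Umu, (Uo l hl (by omega) (by omega)).2]
      · subst h2
        rw [(M_right h hj).2, map_mul, map_inv, Umu, Uj_b, map_mul, map_inv,
          (N_right h hj).1, (N_right h hj).2]
        simp [mul_assoc]
      · rw [(Uo l hl (by omega) (by omega)).2, (M_out h hj hl (Or.inr h2)).2,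
          (N_out h hj hl (Or.inr h2)).2, (Uo l hl (by omega) (by omega)).2]

/-- the element `F` that moves `μ_{i,j}` to `μ_{i,j+1}` -/
def stepF (g j : ℕ) : MulAut (FG g) :=
  (tauB g (j + 1))⁻¹ * (tauM g j (j + 1))⁻¹ * (tauB g j)⁻¹ * (tauA g j)⁻¹ * tauA g (j + 1) * tauB g (j + 1) *
    tauM g j (j + 1) * tauB g j

theorem mu_adj (g j : ℕ) : mu g j (j + 1) = gb g j * (ga g j)⁻¹ * (gb g j)⁻¹ * ga g (j + 1) := by
  simp [mu, zr_self]

set_option linter.unusedSimpArgs false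

/-- the computation behind `stepF_val`, in an arbitrary group -/
theorem step_abs {O : Type*} [Group O] (a b c d : O) (B1 M B2 A2 Ai1 Bi1 Mi Bi2 : MulAut O)
    (hB1a : B1 a = a * b)
    (hB1b : B1 b = b)
    (hB1c : B1 c = c)
    (hB1d : B1 d = d)
    (hMa : M a = a)
    (hMb : M b = b * a⁻¹ * b⁻¹ * c * b)
    (hMc : M c = b * a⁻¹ * b⁻¹ * c * b * a * b⁻¹)
    (hMd : M d = d * c⁻¹ * b * a * b⁻¹)
    (hB2a : B2 a = a)
    (hB2b : B2 b = b)
    (hB2c : B2 c = c * d)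
    (hB2d : B2 d = d)
    (hA2a : A2 a = a)
    (hA2b : A2 b = b)
    (hA2c : A2 c = c)
    (hA2d : A2 d = d * c⁻¹)
    (hAi1a : Ai1 a = a)
    (hAi1b : Ai1 b = b * a)
    (hAi1c : Ai1 c = c)
    (hAi1d : Ai1 d = d)
    (hBi1a : Bi1 a = a * b⁻¹)
    (hBi1b : Bi1 b = b)
    (hBi1c : Bi1 c = c)
    (hBi1d : Bi1 d = d)
    (hMia : Mi a = a)
    (hMib : Mi b = c⁻¹ * b * a)
    (hMic : Mi c = c⁻¹ * b * a * b⁻¹ * c * b * a⁻¹ * b⁻¹ * c)
    (hMid : Mi d = d * b * a⁻¹ * b⁻¹ * c)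
    (hBi2a : Bi2 a = a)
    (hBi2b : Bi2 b = b)
    (hBi2c : Bi2 c = c * d⁻¹)
    (hBi2d : Bi2 d = d)
    : Bi2 (Mi (Bi1 (Ai1 (A2 (B2 (M (B1 a))))))) = a * b * a⁻¹ * b⁻¹ * c ∧
      Bi2 (Mi (Bi1 (Ai1 (A2 (B2 (M (B1 b))))))) = d * c⁻¹ * b * a * b * a⁻¹ * b⁻¹ * c ∧
      Bi2 (Mi (Bi1 (Ai1 (A2 (B2 (M (B1 c))))))) = d * c⁻¹ * b * a * b * a⁻¹ * b⁻¹ * c * a⁻¹ * b⁻¹ * c * d⁻¹ ∧
      Bi2 (Mi (Bi1 (Ai1 (A2 (B2 (M (B1 d))))))) = d * c⁻¹ * b * a * b⁻¹ * a⁻¹ * b⁻¹ * c * d⁻¹ := by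
  refine ⟨?_, ?_, ?_, ?_⟩
  · have e0 : B1 (a) = a * b := by
      simp only [map_mul, map_inv, hB1a, hB1b, hB1c, hB1d]
      try simp [mul_assoc]
    have e1 : M (a * b) = a * b * a⁻¹ * b⁻¹ * c * b := by
      simp only [map_mul, map_inv, hMa, hMb, hMc, hMd]
      try simp [mul_assoc]
    have e2 : B2 (a * b * a⁻¹ * b⁻¹ * c * b) = a * b * a⁻¹ * b⁻¹ * c * d * b := by
      simp only [map_mul, map_inv, hB2a, hB2b, hB2c, hB2d]
      try simp [mul_assoc]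
    have e3 : A2 (a * b * a⁻¹ * b⁻¹ * c * d * b) = a * b * a⁻¹ * b⁻¹ * c * d * c⁻¹ * b := by
      simp only [map_mul, map_inv, hA2a, hA2b, hA2c, hA2d]
      try simp [mul_assoc]
    have e4 : Ai1 (a * b * a⁻¹ * b⁻¹ * c * d * c⁻¹ * b) = a * b * a⁻¹ * b⁻¹ * c * d * c⁻¹ * b * a := by
      simp only [map_mul, map_inv, hAi1a, hAi1b, hAi1c, hAi1d]
      try simp [mul_assoc]
    have e5 : Bi1 (a * b * a⁻¹ * b⁻¹ * c * d * c⁻¹ * b * a) = a * b * a⁻¹ * b⁻¹ * c * d * c⁻¹ * b * a * b⁻¹ := by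
      simp only [map_mul, map_inv, hBi1a, hBi1b, hBi1c, hBi1d]
      try simp [mul_assoc]
    have e6 : Mi (a * b * a⁻¹ * b⁻¹ * c * d * c⁻¹ * b * a * b⁻¹) = a * b * a⁻¹ * b⁻¹ * c * d := by
      simp only [map_mul, map_inv, hMia, hMib, hMic, hMid]
      try simp [mul_assoc]
    have e7 : Bi2 (a * b * a⁻¹ * b⁻¹ * c * d) = a * b * a⁻¹ * b⁻¹ * c := by
      simp only [map_mul, map_inv, hBi2a, hBi2b, hBi2c, hBi2d]
      try simp [mul_assoc]
    rw [e0, e1, e2, e3, e4, e5, e6, e7]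
  · have e0 : B1 (b) = b := by
      simp only [map_mul, map_inv, hB1a, hB1b, hB1c, hB1d]
      try simp [mul_assoc]
    have e1 : M (b) = b * a⁻¹ * b⁻¹ * c * b := by
      simp only [map_mul, map_inv, hMa, hMb, hMc, hMd]
      try simp [mul_assoc]
    have e2 : B2 (b * a⁻¹ * b⁻¹ * c * b) = b * a⁻¹ * b⁻¹ * c * d * b := by
      simp only [map_mul, map_inv, hB2a, hB2b, hB2c, hB2d]
      try simp [mul_assoc]
    have e3 : A2 (b * a⁻¹ * b⁻¹ * c * d * b) = b * a⁻¹ * b⁻¹ * c * d * c⁻¹ * b := by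
      simp only [map_mul, map_inv, hA2a, hA2b, hA2c, hA2d]
      try simp [mul_assoc]
    have e4 : Ai1 (b * a⁻¹ * b⁻¹ * c * d * c⁻¹ * b) = b * a⁻¹ * b⁻¹ * c * d * c⁻¹ * b * a := by
      simp only [map_mul, map_inv, hAi1a, hAi1b, hAi1c, hAi1d]
      try simp [mul_assoc]
    have e5 : Bi1 (b * a⁻¹ * b⁻¹ * c * d * c⁻¹ * b * a) = b * b * a⁻¹ * b⁻¹ * c * d * c⁻¹ * b * a * b⁻¹ := by
      simp only [map_mul, map_inv, hBi1a, hBi1b, hBi1c, hBi1d]
      try simp [mul_assoc]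
    have e6 : Mi (b * b * a⁻¹ * b⁻¹ * c * d * c⁻¹ * b * a * b⁻¹) = c⁻¹ * b * a * b * a⁻¹ * b⁻¹ * c * d := by
      simp only [map_mul, map_inv, hMia, hMib, hMic, hMid]
      try simp [mul_assoc]
    have e7 : Bi2 (c⁻¹ * b * a * b * a⁻¹ * b⁻¹ * c * d) = d * c⁻¹ * b * a * b * a⁻¹ * b⁻¹ * c := by
      simp only [map_mul, map_inv, hBi2a, hBi2b, hBi2c, hBi2d]
      try simp [mul_assoc]
    rw [e0, e1, e2, e3, e4, e5, e6, e7]
  · have e0 : B1 (c) = c := by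
      simp only [map_mul, map_inv, hB1a, hB1b, hB1c, hB1d]
      try simp [mul_assoc]
    have e1 : M (c) = b * a⁻¹ * b⁻¹ * c * b * a * b⁻¹ := by
      simp only [map_mul, map_inv, hMa, hMb, hMc, hMd]
      try simp [mul_assoc]
    have e2 : B2 (b * a⁻¹ * b⁻¹ * c * b * a * b⁻¹) = b * a⁻¹ * b⁻¹ * c * d * b * a * b⁻¹ := by
      simp only [map_mul, map_inv, hB2a, hB2b, hB2c, hB2d]
      try simp [mul_assoc]
    have e3 : A2 (b * a⁻¹ * b⁻¹ * c * d * b * a * b⁻¹) = b * a⁻¹ * b⁻¹ * c * d * c⁻¹ * b * a * b⁻¹ := by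
      simp only [map_mul, map_inv, hA2a, hA2b, hA2c, hA2d]
      try simp [mul_assoc]
    have e4 : Ai1 (b * a⁻¹ * b⁻¹ * c * d * c⁻¹ * b * a * b⁻¹) = b * a⁻¹ * b⁻¹ * c * d * c⁻¹ * b * a * b⁻¹ := by
      simp only [map_mul, map_inv, hAi1a, hAi1b, hAi1c, hAi1d]
      try simp [mul_assoc]
    have e5 : Bi1 (b * a⁻¹ * b⁻¹ * c * d * c⁻¹ * b * a * b⁻¹) = b * b * a⁻¹ * b⁻¹ * c * d * c⁻¹ * b * a * b⁻¹ * b⁻¹ := by
      simp only [map_mul, map_inv, hBi1a, hBi1b, hBi1c, hBi1d]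
      try simp [mul_assoc]
    have e6 : Mi (b * b * a⁻¹ * b⁻¹ * c * d * c⁻¹ * b * a * b⁻¹ * b⁻¹) = c⁻¹ * b * a * b * a⁻¹ * b⁻¹ * c * d * a⁻¹ * b⁻¹ * c := by
      simp only [map_mul, map_inv, hMia, hMib, hMic, hMid]
      try simp [mul_assoc]
    have e7 : Bi2 (c⁻¹ * b * a * b * a⁻¹ * b⁻¹ * c * d * a⁻¹ * b⁻¹ * c) = d * c⁻¹ * b * a * b * a⁻¹ * b⁻¹ * c * a⁻¹ * b⁻¹ * c * d⁻¹ := by
      simp only [map_mul, map_inv, hBi2a, hBi2b, hBi2c, hBi2d]
      try simp [mul_assoc]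
    rw [e0, e1, e2, e3, e4, e5, e6, e7]
  · have e0 : B1 (d) = d := by
      simp only [map_mul, map_inv, hB1a, hB1b, hB1c, hB1d]
      try simp [mul_assoc]
    have e1 : M (d) = d * c⁻¹ * b * a * b⁻¹ := by
      simp only [map_mul, map_inv, hMa, hMb, hMc, hMd]
      try simp [mul_assoc]
    have e2 : B2 (d * c⁻¹ * b * a * b⁻¹) = c⁻¹ * b * a * b⁻¹ := by
      simp only [map_mul, map_inv, hB2a, hB2b, hB2c, hB2d]
      try simp [mul_assoc]
    have e3 : A2 (c⁻¹ * b * a * b⁻¹) = c⁻¹ * b * a * b⁻¹ := by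
      simp only [map_mul, map_inv, hA2a, hA2b, hA2c, hA2d]
      try simp [mul_assoc]
    have e4 : Ai1 (c⁻¹ * b * a * b⁻¹) = c⁻¹ * b * a * b⁻¹ := by
      simp only [map_mul, map_inv, hAi1a, hAi1b, hAi1c, hAi1d]
      try simp [mul_assoc]
    have e5 : Bi1 (c⁻¹ * b * a * b⁻¹) = c⁻¹ * b * a * b⁻¹ * b⁻¹ := by
      simp only [map_mul, map_inv, hBi1a, hBi1b, hBi1c, hBi1d]
      try simp [mul_assoc]
    have e6 : Mi (c⁻¹ * b * a * b⁻¹ * b⁻¹) = c⁻¹ * b * a * b⁻¹ * a⁻¹ * b⁻¹ * c := by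
      simp only [map_mul, map_inv, hMia, hMib, hMic, hMid]
      try simp [mul_assoc]
    have e7 : Bi2 (c⁻¹ * b * a * b⁻¹ * a⁻¹ * b⁻¹ * c) = d * c⁻¹ * b * a * b⁻¹ * a⁻¹ * b⁻¹ * c * d⁻¹ := by
      simp only [map_mul, map_inv, hBi2a, hBi2b, hBi2c, hBi2d]
      try simp [mul_assoc]
    rw [e0, e1, e2, e3, e4, e5, e6, e7]

/-- values of `stepF` -/
theorem stepF_val {g j : ℕ} (hj : j + 1 < g) :
    stepF g j (ga g j) = ga g j * gb g j * (ga g j)⁻¹ * (gb g j)⁻¹ * ga g (j + 1) ∧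
    stepF g j (gb g j) = gb g (j + 1) * (ga g (j + 1))⁻¹ * gb g j * ga g j * gb g j * (ga g j)⁻¹ *
      (gb g j)⁻¹ * ga g (j + 1) ∧
    stepF g j (ga g (j + 1)) = gb g (j + 1) * (ga g (j + 1))⁻¹ *
      gb g j * ga g j * gb g j * (ga g j)⁻¹ * (gb g j)⁻¹ * ga g (j + 1) *
      (ga g j)⁻¹ * (gb g j)⁻¹ * ga g (j + 1) * (gb g (j + 1))⁻¹ ∧
    stepF g j (gb g (j + 1)) = gb g (j + 1) * (ga g (j + 1))⁻¹ *
      gb g j * ga g j * (gb g j)⁻¹ * (ga g j)⁻¹ * (gb g j)⁻¹ * ga g (j + 1) * (gb g (j + 1))⁻¹ := by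
  have hj0 : j < g := by omega
  have hlt : j < j + 1 := Nat.lt_succ_self j
  have ne1 : j ≠ j + 1 := by omega
  have ne2 : j + 1 ≠ j := by omega
  have m1 := M_left hlt hj
  have m2 := M_right hlt hj
  have n1 := Mi_left hlt hj
  have n2 := Mi_right hlt hj
  rw [mu_adj] at m1 m2 n1 n2
  exact step_abs (ga g j) (gb g j) (ga g (j + 1)) (gb g (j + 1)) (tauB g j) (tauM g j (j + 1))
    (tauB g (j + 1)) (tauA g (j + 1)) (tauA g j)⁻¹ (tauB g j)⁻¹ (tauM g j (j + 1))⁻¹ (tauB g (j + 1))⁻¹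
    (B_ga_self hj0) (B_gb hj0) (B_ga_ne hj ne2) (B_gb hj)
    m1.1 m1.2 (by rw [m2.1]; simp [mul_assoc]) (by rw [m2.2]; simp [mul_assoc])
    (B_ga_ne hj0 ne1) (B_gb hj0) (B_ga_self hj) (B_gb hj)
    (A_ga hj0) (A_gb_ne hj0 ne1) (A_ga hj) (A_gb_self hj)
    (Ai_ga hj0) (Ai_gb_self hj0) (Ai_ga hj) (Ai_gb_ne hj ne2)
    (Bi_ga_self hj0) (Bi_gb hj0) (Bi_ga_ne hj ne2) (Bi_gb hj)
    n1.1 (by rw [n1.2]; simp [mul_assoc]) (by rw [n2.1]; simp [mul_assoc]) (by rw [n2.2]; simp [mul_assoc])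
    (Bi_ga_ne hj0 ne1) (Bi_gb hj0) (Bi_ga_self hj) (Bi_gb hj)

theorem step_abs2 {O : Type*} [Group O] (a b c d μ : O) (M : MulAut O)
    (ha : M a = μ * a * μ⁻¹) (hb : M b = μ * b * μ⁻¹) (hc : M c = μ * c * μ⁻¹) (hd : M d = d * μ⁻¹) :
    M (a * b * a⁻¹ * b⁻¹ * c) = μ * (a * b * a⁻¹ * b⁻¹ * c) * μ⁻¹ ∧
    M (d * c⁻¹ * b * a * b * a⁻¹ * b⁻¹ * c) = d * c⁻¹ * b * a * b * a⁻¹ * b⁻¹ * c * μ⁻¹ ∧
    M (d * c⁻¹ * b * a * b * a⁻¹ * b⁻¹ * c * a⁻¹ * b⁻¹ * c * d⁻¹) =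
      d * c⁻¹ * b * a * b * a⁻¹ * b⁻¹ * c * a⁻¹ * b⁻¹ * c * d⁻¹ ∧
    M (d * c⁻¹ * b * a * b⁻¹ * a⁻¹ * b⁻¹ * c * d⁻¹) = d * c⁻¹ * b * a * b⁻¹ * a⁻¹ * b⁻¹ * c * d⁻¹ := by
  refine ⟨?_, ?_, ?_, ?_⟩
  · simp only [map_mul, map_inv, ha, hb, hc, hd]
    simp [mul_assoc]
  · simp only [map_mul, map_inv, ha, hb, hc, hd]
    simp [mul_assoc]
  · simp only [map_mul, map_inv, ha, hb, hc, hd]
    simp [mul_assoc]
  · simp only [map_mul, map_inv, ha, hb, hc, hd]
    simp [mul_assoc]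

theorem stepF_out {g j l : ℕ} (hj : j + 1 < g) (hl : l < g) (h1 : l ≠ j) (h2 : l ≠ j + 1) :
    stepF g j (ga g l) = ga g l ∧ stepF g j (gb g l) = gb g l := by
  have hlt : j < j + 1 := Nat.lt_succ_self j
  have ap : ∀ x, stepF g j x = (tauB g (j + 1))⁻¹ ((tauM g j (j + 1))⁻¹ ((tauB g j)⁻¹ ((tauA g j)⁻¹
    (tauA g (j + 1) (tauB g (j + 1) (tauM g j (j + 1) (tauB g j x))))))) := fun x => rfl
  have m := M_out hlt hj hl (by omega)
  have n := Mi_out hlt hj hl (by omega)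
  constructor
  · simp only [ap, B_ga_ne hl h1, m.1, B_ga_ne hl h2, A_ga hl, Ai_ga hl, Bi_ga_ne hl h1, n.1, Bi_ga_ne hl h2]
  · simp only [ap, B_gb hl, m.2, A_gb_ne hl h2, Ai_gb_ne hl h1, Bi_gb hl, n.2]


end Pool.Agent.helper20.Hz
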